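import Mathlib

/-!
# Local consistency of twists of class 2 groups: linear algebra
-/

set_option autoImplicit false
set_option linter.unusedSectionVars false

namespace Pool.Agent.K4H86.GW

open Module

variable {F : Type} [Field F] {ι : Type} [Fintype ι] [DecidableEq ι] {w b : ℕ}

/-- Tensors in `A ⊗ A ⊗ W*`. -/
abbrev Ten (F ι : Type) (w : ℕ) : Type := Fin w → ι → ι → F

/-- The skew tensors. -/
def Skew (F ι : Type) [Field F] (w : ℕ) : Submodule F (Ten F ι w) where
  carrier := {y | ∀ j i l, y j i l = - y j l i}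
  add_mem' := by
    intro y y' h h' j i l
    simp only [Pi.add_apply, h j i l, h' j i l]
    ring
  zero_mem' := by
    intro j i l
    simp
  smul_mem' := by
    intro a y h j i l
    simp only [Pi.smul_apply, smul_eq_mul, h j i l]
    ring

/-- The support of a tensor: the span of its columns. -/
def supp (y : Ten F ι w) : Submodule F (ι → F) :=
  Submodule.span F (Set.range fun q : Fin w × ι => fun i => y q.1 i q.2)

theorem col_mem (y : Ten F ι w) (j : Fin w) (l : ι) : (fun i => y j i l) ∈ supp y :=
  Submodule.subset_span ⟨(j, l), rfl⟩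

theorem supp_le {y : Ten F ι w} {U : Submodule F (ι → F)}
    (h : ∀ j l, (fun i => y j i l) ∈ U) : supp y ≤ U := by
  rw [supp, Submodule.span_le]
  rintro _ ⟨q, rfl⟩
  exact h q.1 q.2

theorem supp_add (y y' : Ten F ι w) : supp (y + y') ≤ supp y ⊔ supp y' := by
  apply supp_le
  intro j l
  have h : (fun i => (y + y') j i l) = (fun i => y j i l) + fun i => y' j i l := rfl
  rw [h]
  exact Submodule.add_mem_sup (col_mem y j l) (col_mem y' j l)

theorem supp_smul (a : F) (y : Ten F ι w) : supp (a • y) ≤ supp y := by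
  apply supp_le
  intro j l
  have h : (fun i => (a • y) j i l) = a • (fun i => y j i l) := rfl
  rw [h]
  exact Submodule.smul_mem _ _ (col_mem y j l)

theorem eq_zero_of_supp {y : Ten F ι w} (h : supp y = ⊥) : y = 0 := by
  funext j i l
  have h1 := col_mem y j l
  rw [h, Submodule.mem_bot] at h1
  exact congrFun h1 i

/-- The contraction of a tensor with the pairing `c`. -/
def E (c : Fin b → ι → Fin w → F) : Ten F ι w →ₗ[F] (ι → Fin b → F) where
  toFun y := fun i s => ∑ j, ∑ l, y j i l * c s l j
  map_add' y y' := by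
    funext i s
    simp only [Pi.add_apply, add_mul, Finset.sum_add_distrib]
  map_smul' a y := by
    funext i s
    simp only [Pi.smul_apply, smul_eq_mul, RingHom.id_apply, Finset.mul_sum, mul_assoc]

theorem E_apply (c : Fin b → ι → Fin w → F) (y : Ten F ι w) (i : ι) (s : Fin b) :
    E c y i s = ∑ j, ∑ l, y j i l * c s l j := rfl

/-- The pairing of maps `A → B` with tensors in `A ⊗ B*`. -/
def pairG (γ : ι → Fin b → F) : (ι → Fin b → F) →ₗ[F] F where
  toFun t := ∑ i, ∑ s, γ i s * t i s
  map_add' y y' := by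
    simp only [Pi.add_apply, mul_add, Finset.sum_add_distrib]
  map_smul' a y := by
    simp only [Pi.smul_apply, smul_eq_mul, RingHom.id_apply, Finset.mul_sum]
    refine Finset.sum_congr rfl fun i _ => Finset.sum_congr rfl fun s _ => ?_
    ring

theorem pairG_apply (γ t : ι → Fin b → F) : pairG γ t = ∑ i, ∑ s, γ i s * t i s := rfl

theorem pairG_add (γ γ' t : ι → Fin b → F) : pairG (γ + γ') t = pairG γ t + pairG γ' t := by
  simp only [pairG_apply, Pi.add_apply, add_mul, Finset.sum_add_distrib]

theorem pairG_neg (γ t : ι → Fin b → F) : pairG (-γ) t = -pairG γ t := by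
  simp only [pairG_apply, Pi.neg_apply, neg_mul, Finset.sum_neg_distrib]

/-- The pairing of a twist with a tensor. -/
def pairB (β : ι → ι → Fin w → F) : Ten F ι w →ₗ[F] F where
  toFun y := ∑ j, ∑ i, ∑ l, β i l j * y j i l
  map_add' y y' := by
    simp only [Pi.add_apply, mul_add, Finset.sum_add_distrib]
  map_smul' a y := by
    simp only [Pi.smul_apply, smul_eq_mul, RingHom.id_apply, Finset.mul_sum]
    refine Finset.sum_congr rfl fun i _ => Finset.sum_congr rfl fun s _ =>
      Finset.sum_congr rfl fun l _ => ?_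
    ring

theorem pairB_apply (β : ι → ι → Fin w → F) (y : Ten F ι w) :
    pairB β y = ∑ j, ∑ i, ∑ l, β i l j * y j i l := rfl

theorem pairB_add (β β' : ι → ι → Fin w → F) (y : Ten F ι w) :
    pairB (β + β') y = pairB β y + pairB β' y := by
  simp only [pairB_apply, Pi.add_apply, add_mul, Finset.sum_add_distrib]

theorem pairB_neg (β : ι → ι → Fin w → F) (y : Ten F ι w) : pairB (-β) y = -pairB β y := by
  simp only [pairB_apply, Pi.neg_apply, neg_mul, Finset.sum_neg_distrib]

/-- The kernel of the pairing. -/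
def Kc (c : Fin b → ι → Fin w → F) : Submodule F (Fin w → ι → F) where
  carrier := {η | ∀ s, ∑ j, ∑ l, η j l * c s l j = 0}
  add_mem' := by
    intro y y' h h' s
    simp only [Pi.add_apply, add_mul, Finset.sum_add_distrib, h s, h' s, add_zero]
  zero_mem' := by
    intro s
    simp
  smul_mem' := by
    intro a y h s
    have h1 := h s
    simp only [Pi.smul_apply, smul_eq_mul, mul_assoc, ← Finset.mul_sum, h1, mul_zero]

/-- The pairing is good up to dimension `K`. -/
def Good (c : Fin b → ι → Fin w → F) (K : ℕ) : Prop :=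
  ∀ (U : Submodule F (ι → F)) (T : Submodule F (Fin w → ι → F)),
    finrank F U ≤ 4 * K → T ≤ Kc c → (∀ η ∈ T, ∀ j, η j ∈ U) → 2 * finrank F T ≤ finrank F U

/-- The orthogonal space. -/
def perp (W : Submodule F (ι → F)) : Submodule F (ι → F) :=
  W.dualAnnihilator.comap (dotProductEquiv F ι).toLinearMap

theorem mem_perp {W : Submodule F (ι → F)} {v : ι → F} :
    v ∈ perp W ↔ ∀ x ∈ W, ∑ i, v i * x i = 0 := by
  rw [perp, Submodule.mem_comap, Submodule.mem_dualAnnihilator]
  rfl

theorem finrank_perp (W : Submodule F (ι → F)) :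
    finrank F W + finrank F (perp W) = Fintype.card ι := by
  have h1 := Subspace.finrank_add_finrank_dualAnnihilator_eq W
  have h2 : finrank F (perp W) = finrank F W.dualAnnihilator := by
    rw [perp, ← LinearEquiv.finrank_map_eq (dotProductEquiv F ι).symm W.dualAnnihilator,
      Submodule.comap_equiv_eq_map_symm]
  rw [h2, h1, Module.finrank_fintype_fun_eq_card]

/-- Flattening of a tensor. -/
def flat (y : Ten F ι w) : (ι → F) →ₗ[F] (Fin w → ι → F) where
  toFun φ := fun j l => ∑ i, φ i * y j i l
  map_add' φ φ' := by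
    funext j l
    simp only [Pi.add_apply, add_mul, Finset.sum_add_distrib]
  map_smul' a φ := by
    funext j l
    simp only [Pi.smul_apply, smul_eq_mul, RingHom.id_apply, Finset.mul_sum, mul_assoc]

theorem flat_apply (y : Ten F ι w) (φ : ι → F) (j : Fin w) (l : ι) :
    flat y φ j l = ∑ i, φ i * y j i l := rfl

theorem flat_mem {y : Ten F ι w} (hy : y ∈ Skew F ι w) (φ : ι → F) (j : Fin w) :
    flat y φ j ∈ supp y := by
  have h : flat y φ j = -∑ i, φ i • fun l => y j l i := by
    funext l
    rw [flat_apply, Pi.neg_apply, Finset.sum_apply, ← Finset.sum_neg_distrib]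
    refine Finset.sum_congr rfl fun i _ => ?_
    rw [Pi.smul_apply, smul_eq_mul, hy j i l]
    ring
  rw [h]
  refine Submodule.neg_mem _ (Submodule.sum_mem _ fun i _ => Submodule.smul_mem _ _ ?_)
  exact col_mem y j i

theorem flat_Kc {c : Fin b → ι → Fin w → F} {y : Ten F ι w} {W : Submodule F (ι → F)}
    (hE : ∀ s, (fun i => E c y i s) ∈ W) {φ : ι → F} (hφ : φ ∈ perp W) :
    flat y φ ∈ Kc c := by
  intro s
  have h1 := mem_perp.1 hφ _ (hE s)
  rw [← h1]
  simp only [flat_apply, E_apply, Finset.mul_sum, Finset.sum_mul]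
  rw [Finset.sum_comm (s := (Finset.univ : Finset ι)) (t := (Finset.univ : Finset (Fin w)))]
  refine Finset.sum_congr rfl fun j _ => ?_
  rw [Finset.sum_comm]
  refine Finset.sum_congr rfl fun i _ => Finset.sum_congr rfl fun l _ => ?_
  rw [mul_assoc]

/-- **Key lemma**: the contraction of a tensor of small support has large rank. -/
theorem key {c : Fin b → ι → Fin w → F} {K : ℕ} (hc : Good c K) {y : Ten F ι w}
    (hy : y ∈ Skew F ι w) (hr : finrank F (supp y) ≤ 4 * K) {W : Submodule F (ι → F)}
    (hE : ∀ s, (fun i => E c y i s) ∈ W) : finrank F (supp y) ≤ 2 * finrank F W := by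
  set f := (flat y).domRestrict (perp W) with hf
  have hle : perp (W ⊔ supp y) ≤ perp W := by
    intro φ h
    rw [mem_perp] at h ⊢
    intro x hx
    exact h x (Submodule.mem_sup_left hx)
  have hker : LinearMap.ker f = (perp (W ⊔ supp y)).comap (perp W).subtype := by
    ext φ
    rw [LinearMap.mem_ker, Submodule.mem_comap, hf, LinearMap.domRestrict_apply, mem_perp]
    constructor
    · intro h
      have h0 : supp y ≤ LinearMap.ker (dotProductEquiv F ι (φ : ι → F)) := by
        apply supp_le
        intro j l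
        exact congrFun (congrFun h j) l
      have h1 : W ≤ LinearMap.ker (dotProductEquiv F ι (φ : ι → F)) := by
        intro x hx
        exact mem_perp.1 φ.2 x hx
      intro x hx
      exact sup_le h1 h0 hx
    · intro h
      funext j l
      exact h _ (Submodule.mem_sup_right (col_mem y j l))
  have hT : finrank F (LinearMap.range f) + finrank F (LinearMap.ker f)
      = finrank F (perp W) := LinearMap.finrank_range_add_finrank_ker _
  have h1 := finrank_perp W
  have h2 := finrank_perp (W ⊔ supp y)
  have h3 : finrank F (LinearMap.ker f) = finrank F (perp (W ⊔ supp y)) := by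
    rw [hker]
    exact (Submodule.comapSubtypeEquivOfLe hle).finrank_eq
  have h4 : finrank F (supp y) ≤ finrank F ↥(W ⊔ supp y) :=
    Submodule.finrank_mono le_sup_right
  have h5 := hc (supp y) (LinearMap.range f) hr
    (by
      rintro _ ⟨φ, rfl⟩
      exact flat_Kc hE φ.2)
    (by
      rintro _ ⟨φ, rfl⟩ j
      exact flat_mem hy _ j)
  omega

/-- The certificates at the level `W`. -/
def Y (c : Fin b → ι → Fin w → F) (K : ℕ) (W : Submodule F (ι → F)) : Set (Ten F ι w) :=
  {y | y ∈ Skew F ι w ∧ finrank F (supp y) ≤ 2 * K ∧ ∀ s, (fun i => E c y i s) ∈ W}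

theorem Y_mono (c : Fin b → ι → Fin w → F) (K : ℕ) {W W' : Submodule F (ι → F)} (h : W ≤ W') :
    Y c K W ⊆ Y c K W' := fun _ hy => ⟨hy.1, hy.2.1, fun s => h (hy.2.2 s)⟩

/-- The certificates form a submodule at small levels. -/
def Ys {c : Fin b → ι → Fin w → F} {K : ℕ} (hc : Good c K) (W : Submodule F (ι → F))
    (hW : finrank F W ≤ K) : Submodule F (Ten F ι w) where
  carrier := Y c K W
  add_mem' := by
    intro y y' h h'
    have h1 : y + y' ∈ Skew F ι w := Submodule.add_mem _ h.1 h'.1
    have h2 : ∀ s, (fun i => E c (y + y') i s) ∈ W := by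
      intro s
      have h3 : (fun i => E c (y + y') i s) = (fun i => E c y i s) + fun i => E c y' i s := by
        rw [map_add]
        rfl
      rw [h3]
      exact Submodule.add_mem _ (h.2.2 s) (h'.2.2 s)
    have h4 : finrank F (supp (y + y')) ≤ 4 * K := by
      have h5 := Submodule.finrank_mono (supp_add y y')
      have h6 := Submodule.finrank_add_le_finrank_add_finrank (supp y) (supp y')
      have h7 := h.2.1
      have h8 := h'.2.1
      omega
    have h9 := key hc h1 h4 h2
    exact ⟨h1, by omega, h2⟩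
  zero_mem' := by
    refine ⟨Submodule.zero_mem _, ?_, ?_⟩
    · have h : supp (0 : Ten F ι w) = ⊥ := by
        rw [eq_bot_iff]
        exact supp_le fun j l => Submodule.zero_mem _
      rw [h, finrank_bot]
      exact Nat.zero_le _
    · intro s
      rw [map_zero]
      exact Submodule.zero_mem _
  smul_mem' := by
    intro a y h
    refine ⟨Submodule.smul_mem _ _ h.1, ?_, ?_⟩
    · exact (Submodule.finrank_mono (supp_smul a y)).trans h.2.1
    · intro s
      rw [map_smul]
      exact Submodule.smul_mem _ a (h.2.2 s)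

/-- The local isomorphisms at the level `W`. -/
def Sol (c : Fin b → ι → Fin w → F) (K : ℕ) (δ : ι → ι → Fin w → F)
    (W : Submodule F (ι → F)) : Set (ι → Fin b → F) :=
  {γ | ∀ y ∈ Y c K W, pairG γ (E c y) = pairB δ y}

theorem Sol_anti (c : Fin b → ι → Fin w → F) (K : ℕ) (δ : ι → ι → Fin w → F)
    {W W' : Submodule F (ι → F)} (h : W ≤ W') : Sol c K δ W' ⊆ Sol c K δ W :=
  fun _ hγ y hy => hγ y (Y_mono c K h hy)

/-- The value of a map `A → B`. -/
def ap (γ : ι → Fin b → F) (x : ι → F) : Fin b → F := fun s => ∑ i, γ i s * x i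

theorem ap_add (γ : ι → Fin b → F) (x x' : ι → F) : ap γ (x + x') = ap γ x + ap γ x' := by
  funext s
  simp only [ap, Pi.add_apply, mul_add, Finset.sum_add_distrib]

theorem ap_add_left (γ γ' : ι → Fin b → F) (x : ι → F) : ap (γ + γ') x = ap γ x + ap γ' x := by
  funext s
  simp only [ap, Pi.add_apply, add_mul, Finset.sum_add_distrib]

theorem ap_neg_left (γ : ι → Fin b → F) (x : ι → F) : ap (-γ) x = -ap γ x := by
  funext s
  simp only [ap, Pi.neg_apply, neg_mul, Finset.sum_neg_distrib]

theorem ap_zero_left (x : ι → F) : ap (0 : ι → Fin b → F) x = 0 := by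
  funext s
  simp only [ap, Pi.zero_apply, zero_mul, Finset.sum_const_zero]

theorem ap_smul (γ : ι → Fin b → F) (a : F) (x : ι → F) : ap γ (a • x) = a • ap γ x := by
  funext s
  simp only [ap, Pi.smul_apply, smul_eq_mul, Finset.mul_sum]
  refine Finset.sum_congr rfl fun i _ => ?_
  ring

theorem ap_zero (γ : ι → Fin b → F) : ap γ (0 : ι → F) = 0 := by
  funext s
  simp only [ap, Pi.zero_apply, mul_zero, Finset.sum_const_zero]

/-- The elementary tensor with column `s`. -/
def colT (x : ι → F) (s : Fin b) : ι → Fin b → F := fun i s' => if s' = s then x i else 0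

theorem pairG_colT (γ : ι → Fin b → F) (x : ι → F) (s : Fin b) :
    pairG γ (colT x s) = ap γ x s := by
  rw [pairG_apply, ap]
  refine Finset.sum_congr rfl fun i _ => ?_
  simp [colT]

/-- Functional equations with a consistent system of values have a solution. -/
theorem exists_functional {V : Type} [AddCommGroup V] [Module F V] (Z : Submodule F (V × F))
    (hZ : ∀ z ∈ Z, z.1 = 0 → z.2 = 0) : ∃ g : V →ₗ[F] F, ∀ z ∈ Z, g z.1 = z.2 := by
  obtain ⟨g, hg⟩ := LinearMap.exists_extend Z.toLinearPMap.toFun
  refine ⟨g, fun z hz => ?_⟩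
  have h1 : z ∈ Z.toLinearPMap.graph := by
    rw [Submodule.toLinearPMap_graph_eq Z (fun x hx hx' => hZ x hx hx')]
    exact hz
  rw [LinearPMap.mem_graph_iff] at h1
  obtain ⟨v, hv, hv'⟩ := h1
  have h2 := LinearMap.congr_fun hg v
  rw [LinearMap.comp_apply, Submodule.subtype_apply] at h2
  rw [← hv, h2]
  exact hv'

theorem functional_eq_pair (g : (ι → Fin b → F) →ₗ[F] F) :
    ∃ γ : ι → Fin b → F, ∀ t, g t = pairG γ t := by
  refine ⟨fun i s => g (Pi.single i (Pi.single s 1)), fun t => ?_⟩
  have h1 : t = ∑ i, ∑ s, t i s • Pi.single (M := fun _ : ι => Fin b → F) i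
      (Pi.single (M := fun _ : Fin b => F) s (1 : F)) := by
    funext m r
    rw [Finset.sum_apply, Finset.sum_apply]
    rw [Finset.sum_eq_single m]
    · rw [Finset.sum_apply, Finset.sum_apply, Finset.sum_eq_single r]
      · simp
      · intro s _ hs
        simp [hs.symm]
      · intro h
        exact absurd (Finset.mem_univ _) h
    · intro i _ hi
      rw [Finset.sum_apply, Finset.sum_apply]
      refine Finset.sum_eq_zero fun s _ => ?_
      simp [hi.symm]
    · intro h
      exact absurd (Finset.mem_univ _) h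
  rw [pairG_apply]
  conv_lhs => rw [h1]
  rw [map_sum]
  refine Finset.sum_congr rfl fun i _ => ?_
  rw [map_sum]
  refine Finset.sum_congr rfl fun s _ => ?_
  rw [map_smul, smul_eq_mul, mul_comm]

/-- **Extension of local isomorphisms.** -/
theorem extend {c : Fin b → ι → Fin w → F} {K : ℕ} (hc : Good c K) (δ : ι → ι → Fin w → F)
    {W W' : Submodule F (ι → F)} (hK : finrank F W' ≤ K)
    {γ₀ : ι → Fin b → F} (hγ : γ₀ ∈ Sol c K δ W) :
    ∃ γ ∈ Sol c K δ W', ∀ x ∈ W, ap γ x = ap γ₀ x := by
  -- the subspace of elements of `W ⊗ B*`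
  let P : Submodule F (ι → Fin b → F) :=
    { carrier := {t | ∀ s, (fun i => t i s) ∈ W}
      add_mem' := fun {t t'} h h' s => Submodule.add_mem _ (h s) (h' s)
      zero_mem' := fun s => Submodule.zero_mem _
      smul_mem' := fun a t h s => Submodule.smul_mem _ a (h s) }
  let f : (Ys hc W' hK × P) →ₗ[F] ((ι → Fin b → F) × F) :=
    LinearMap.prod
      (((E c).comp (Ys hc W' hK).subtype).coprod P.subtype)
      (((pairB δ).comp (Ys hc W' hK).subtype).coprod ((pairG γ₀).comp P.subtype))
  have hf : ∀ y t, f (y, t) = (E c y.1 + t.1, pairB δ y.1 + pairG γ₀ t.1) := fun y t => rfl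
  obtain ⟨g, hg⟩ := exists_functional (LinearMap.range f) (by
    rintro z ⟨⟨y, t⟩, rfl⟩ h
    rw [hf] at h ⊢
    have h1 : E c y.1 + t.1 = 0 := h
    have h2 : E c y.1 = -t.1 := eq_neg_of_add_eq_zero_left h1
    have h3 : y.1 ∈ Y c K W := by
      refine ⟨y.2.1, y.2.2.1, fun s => ?_⟩
      have h4 : (fun i => E c y.1 i s) = -fun i => t.1 i s := by
        rw [h2]
        rfl
      rw [h4]
      exact Submodule.neg_mem _ (t.2 s)
    have h5 := hγ y.1 h3
    have h6 : t.1 = -E c y.1 := eq_neg_of_add_eq_zero_right h1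
    show pairB δ y.1 + pairG γ₀ t.1 = 0
    rw [h6, map_neg, h5, add_neg_cancel])
  obtain ⟨γ, hγ'⟩ := functional_eq_pair g
  refine ⟨γ, ?_, ?_⟩
  · intro y hy
    have h1 := hg (f (⟨y, hy⟩, 0)) ⟨_, rfl⟩
    rw [hf] at h1
    have h2 : g (E c y + 0) = pairB δ y + pairG γ₀ 0 := h1
    rw [add_zero, map_zero, add_zero, hγ'] at h2
    exact h2
  · intro x hx
    funext s
    have hP : colT x s ∈ P := by
      intro s'
      by_cases h : s' = s
      · have h1 : (fun i => colT x s i s') = x := by
          funext i
          simp [colT, h]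
        rw [h1]
        exact hx
      · have h1 : (fun i => colT x s i s') = 0 := by
          funext i
          simp [colT, h]
        rw [h1]
        exact Submodule.zero_mem _
    have h1 := hg (f (0, ⟨colT x s, hP⟩)) ⟨_, rfl⟩
    rw [hf] at h1
    have h2 : g (E c 0 + colT x s) = pairB δ 0 + pairG γ₀ (colT x s) := h1
    rw [map_zero, zero_add, map_zero, zero_add, hγ', pairG_colT, pairG_colT] at h2
    exact h2

/-- There is a local isomorphism at the bottom. -/
theorem zero_mem_bot {c : Fin b → ι → Fin w → F} {K : ℕ} (hc : Good c K)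
    (δ : ι → ι → Fin w → F) : (0 : ι → Fin b → F) ∈ Sol c K δ ⊥ := by
  intro y hy
  have h1 : finrank F (supp y) ≤ 4 * K := by
    have h2 := hy.2.1
    omega
  have h3 := key hc hy.1 h1 hy.2.2
  rw [finrank_bot, mul_zero, Nat.le_zero, Submodule.finrank_eq_zero] at h3
  rw [eq_zero_of_supp h3, map_zero, map_zero, map_zero]

theorem exists_sol {c : Fin b → ι → Fin w → F} {K : ℕ} (hc : Good c K)
    (δ : ι → ι → Fin w → F) {W : Submodule F (ι → F)} (hK : finrank F W ≤ K) :
    ∃ γ : ι → Fin b → F, γ ∈ Sol c K δ W := by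
  obtain ⟨γ, h, _⟩ := extend hc δ hK (zero_mem_bot hc δ)
  exact ⟨γ, h⟩

/-- The elementary skew tensor. -/
def elT (x x' : ι → F) (j : Fin w) : Ten F ι w :=
  fun j' i l => if j' = j then x i * x' l - x' i * x l else 0

/-- The pairing on the group. -/
def cc (c : Fin b → ι → Fin w → F) (u : Fin b → F) (x : ι → F) : Fin w → F :=
  fun j => ∑ s, ∑ l, u s * (c s l j * x l)

/-- The bilinear form of a twist. -/
def bb (β : ι → ι → Fin w → F) (x x' : ι → F) : Fin w → F :=
  fun j => ∑ i, ∑ l, β i l j * (x i * x' l)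

/-- **Local equation**: a local isomorphism satisfies the equations of its level. -/
theorem local_eq {c : Fin b → ι → Fin w → F} {K : ℕ} (hK : 1 ≤ K) {δ : ι → ι → Fin w → F}
    {W : Submodule F (ι → F)} {γ : ι → Fin b → F} (hγ : γ ∈ Sol c K δ W) {x x' : ι → F}
    (hx : x ∈ W) (hx' : x' ∈ W) :
    cc c (ap γ x) x' - cc c (ap γ x') x = bb δ x x' - bb δ x' x := by
  funext j
  have hcol : ∀ (U : Submodule F (ι → F)), x ∈ U → x' ∈ U → ∀ j' l,
      (fun i => elT x x' j j' i l) ∈ U := by
    intro U hU hU' j' l
    by_cases h : j' = j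
    · have h1 : (fun i => elT x x' j j' i l) = x' l • x - x l • x' := by
        funext i
        simp only [elT, h, if_true, Pi.sub_apply, Pi.smul_apply, smul_eq_mul]
        ring
      rw [h1]
      exact Submodule.sub_mem _ (Submodule.smul_mem _ _ hU) (Submodule.smul_mem _ _ hU')
    · have h1 : (fun i => elT x x' j j' i l) = 0 := by
        funext i
        simp only [elT, if_neg h, Pi.zero_apply]
      rw [h1]
      exact Submodule.zero_mem _
  have hE : ∀ i s, E c (elT x x' j) i s
      = x i * (∑ l, c s l j * x' l) - x' i * (∑ l, c s l j * x l) := by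
    intro i s
    rw [E_apply, Finset.sum_eq_single j]
    · simp only [elT, if_true]
      rw [Finset.mul_sum, Finset.mul_sum, ← Finset.sum_sub_distrib]
      refine Finset.sum_congr rfl fun l _ => ?_
      ring
    · intro j' _ hj'
      refine Finset.sum_eq_zero fun l _ => ?_
      simp only [elT, if_neg hj', zero_mul]
    · intro h
      exact absurd (Finset.mem_univ _) h
  have hY : elT x x' j ∈ Y c K W := by
    refine ⟨?_, ?_, ?_⟩
    · intro j' i l
      by_cases h : j' = j
      · simp only [elT, h, if_true]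
        ring
      · simp only [elT, if_neg h, neg_zero]
    · have h1 : supp (elT x x' j) ≤ Submodule.span F (Set.range ![x, x']) := by
        apply supp_le
        exact hcol _ (Submodule.subset_span ⟨0, rfl⟩) (Submodule.subset_span ⟨1, rfl⟩)
      have h2 := Submodule.finrank_mono h1
      have h3 : finrank F (Submodule.span F (Set.range ![x, x'])) ≤ 2 := by
        have h4 := finrank_range_le_card (R := F) ![x, x']
        rwa [Fintype.card_fin] at h4
      omega
    · intro s
      have h1 : (fun i => E c (elT x x' j) i s)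
          = (∑ l, c s l j * x' l) • x - (∑ l, c s l j * x l) • x' := by
        funext i
        rw [hE, Pi.sub_apply, Pi.smul_apply, Pi.smul_apply, smul_eq_mul, smul_eq_mul]
        ring
      rw [h1]
      exact Submodule.sub_mem _ (Submodule.smul_mem _ _ hx) (Submodule.smul_mem _ _ hx')
  have h1 := hγ _ hY
  rw [pairG_apply, pairB_apply] at h1
  have h2 : ∑ i, ∑ s, γ i s * E c (elT x x' j) i s
      = cc c (ap γ x) x' j - cc c (ap γ x') x j := by
    rw [Finset.sum_comm]
    simp only [cc]
    rw [← Finset.sum_sub_distrib]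
    refine Finset.sum_congr rfl fun s _ => ?_
    rw [← Finset.mul_sum, ← Finset.mul_sum, ap, ap, Finset.sum_mul, Finset.sum_mul,
      ← Finset.sum_sub_distrib]
    refine Finset.sum_congr rfl fun i _ => ?_
    rw [hE]
    ring
  have h3 : ∑ j', ∑ i, ∑ l, δ i l j' * elT x x' j j' i l = bb δ x x' j - bb δ x' x j := by
    rw [Finset.sum_eq_single j]
    · simp only [elT, if_true, bb]
      rw [← Finset.sum_sub_distrib]
      refine Finset.sum_congr rfl fun i _ => ?_
      rw [← Finset.sum_sub_distrib]
      refine Finset.sum_congr rfl fun l _ => ?_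
      ring
    · intro j' _ hj'
      refine Finset.sum_eq_zero fun i _ => Finset.sum_eq_zero fun l _ => ?_
      simp only [elT, if_neg hj', mul_zero]
    · intro h
      exact absurd (Finset.mem_univ _) h
  rw [h2, h3] at h1
  rw [Pi.sub_apply, Pi.sub_apply]
  exact h1

end Pool.Agent.K4H86.GW
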