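import Mathlib

/-!
# Groups of class two from alternating maps
-/

set_option autoImplicit false
set_option linter.unusedSectionVars false

namespace Pool.Agent.K4H86.GW

/-- A central alternating bracket on an abelian group. -/
structure Br (M : Type) [AddCommGroup M] where
  L : M →+ M →+ M
  alt : ∀ g, L g g = 0
  nil : ∀ g h k, L (L g h) k = 0

namespace Br

variable {M : Type} [AddCommGroup M] (B : Br M)

theorem skew (g h : M) : B.L h g = -B.L g h := by
  have h1 := B.alt (g + h)
  simp only [map_add, AddMonoidHom.add_apply, B.alt, zero_add, add_zero] at h1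
  first
  | exact eq_neg_of_add_eq_zero_right h1
  | exact eq_neg_of_add_eq_zero_left h1

theorem nil' (g h k : M) : B.L k (B.L g h) = 0 := by
  rw [skew, B.nil, neg_zero]

theorem neg_right (g h : M) : B.L g (-h) = -B.L g h := map_neg _ _

theorem neg_left (g h : M) : B.L (-g) h = -B.L g h := by
  rw [map_neg, AddMonoidHom.neg_apply]

/-- The group of a bracket: the product is `g + h + [g, h]`. -/
def Gr (_ : Br M) : Type := M

/-- Elements of the group. -/
def el (g : M) : B.Gr := g

/-- Elements of the group. -/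
def of (g : B.Gr) : M := g

instance : Group B.Gr where
  mul g h := B.el (B.of g + B.of h + B.L (B.of g) (B.of h))
  one := B.el 0
  inv g := B.el (-B.of g)
  mul_assoc g h k := by
    show (B.of g + B.of h + B.L (B.of g) (B.of h)) + B.of k
        + B.L (B.of g + B.of h + B.L (B.of g) (B.of h)) (B.of k)
      = B.of g + (B.of h + B.of k + B.L (B.of h) (B.of k))
        + B.L (B.of g) (B.of h + B.of k + B.L (B.of h) (B.of k))
    simp only [map_add, AddMonoidHom.add_apply, B.nil, B.nil']
    abel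
  one_mul g := by
    show (0 : M) + B.of g + B.L 0 (B.of g) = B.of g
    rw [map_zero, AddMonoidHom.zero_apply, zero_add, add_zero]
  mul_one g := by
    show B.of g + 0 + B.L (B.of g) 0 = B.of g
    rw [map_zero, add_zero, add_zero]
  inv_mul_cancel g := by
    show -B.of g + B.of g + B.L (-B.of g) (B.of g) = 0
    rw [neg_left, B.alt]
    simp

theorem of_mul (g h : B.Gr) : B.of (g * h) = B.of g + B.of h + B.L (B.of g) (B.of h) := rfl

theorem of_one : B.of 1 = 0 := rfl

theorem of_inv (g : B.Gr) : B.of g⁻¹ = -B.of g := rfl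

theorem of_inj {g h : B.Gr} (hh : B.of g = B.of h) : g = h := hh

theorem of_pow (g : B.Gr) (n : ℕ) : B.of (g ^ n) = n • B.of g := by
  induction n with
  | zero => rw [pow_zero, zero_smul, of_one]
  | succ n ih =>
    rw [pow_succ, of_mul, ih, map_nsmul, AddMonoidHom.nsmul_apply, B.alt, smul_zero, add_zero,
      succ_nsmul]

theorem of_comm (g h : B.Gr) : B.of ((h * g)⁻¹ * (g * h)) = 2 • B.L (B.of g) (B.of h) := by
  rw [of_mul, of_inv, of_mul, of_mul, B.skew (B.of g) (B.of h)]
  simp only [map_add, map_neg, AddMonoidHom.add_apply, AddMonoidHom.neg_apply, B.nil, B.nil',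
    B.alt, B.skew (B.of g) (B.of h), two_nsmul]
  abel

/-- The sum is a word of the group, when the exponent is odd. -/
theorem of_word {e : ℕ} (he : ∀ m : M, (2 * e + 1) • m = 0) (g h : B.Gr) :
    B.of (g * h * ((h * g)⁻¹ * (g * h)) ^ e) = B.of g + B.of h := by
  have h1 : B.L (B.of (g * h)) (e • (2 • B.L (B.of g) (B.of h))) = 0 := by
    rw [map_nsmul, map_nsmul, nil', smul_zero, smul_zero]
  rw [of_mul, of_pow, of_comm, h1, add_zero, of_mul, add_assoc, ← mul_nsmul', add_assoc]
  have h2 := he (B.L (B.of g) (B.of h))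
  rw [add_nsmul, one_nsmul] at h2
  rw [show e * 2 = 2 * e by ring, add_comm (B.L (B.of g) (B.of h)), h2, add_zero]

theorem comm_central (g h k : B.Gr) : (g * h * g⁻¹ * h⁻¹) * k = k * (g * h * g⁻¹ * h⁻¹) := by
  have h1 : B.of (g * h * g⁻¹) = B.of h + 2 • B.L (B.of g) (B.of h) := by
    rw [of_mul, of_mul, of_inv]
    simp only [map_add, map_neg, AddMonoidHom.add_apply, B.nil, B.alt,
      B.skew (B.of g) (B.of h), two_nsmul]
    abel
  have h0 : B.of (g * h * g⁻¹ * h⁻¹) = 2 • B.L (B.of g) (B.of h) := by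
    rw [of_mul B (g * h * g⁻¹), h1, of_inv]
    simp only [map_add, map_neg, AddMonoidHom.add_apply, B.nil, B.alt, two_nsmul]
    abel
  apply B.of_inj
  rw [of_mul B (g * h * g⁻¹ * h⁻¹) k, of_mul B k (g * h * g⁻¹ * h⁻¹), h0]
  simp only [map_nsmul, AddMonoidHom.nsmul_apply, B.nil, B.nil', smul_zero, add_zero]
  rw [add_comm]

variable {B} {B' : Br M}

/-- An isomorphism of groups is additive. -/
theorem iso_add {e : ℕ} (he : ∀ m : M, (2 * e + 1) • m = 0) (φ : B.Gr ≃* B'.Gr) (g h : M) :
    B'.of (φ (B.el (g + h))) = B'.of (φ (B.el g)) + B'.of (φ (B.el h)) := by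
  have h1 : B.el (g + h) = B.el g * B.el h * ((B.el h * B.el g)⁻¹ * (B.el g * B.el h)) ^ e :=
    B.of_inj (B.of_word he (B.el g) (B.el h)).symm
  rw [h1, map_mul, map_mul, map_pow, map_mul, map_inv, map_mul, map_mul, of_word _ he]

/-- The additive map of an isomorphism of groups. -/
def isoAdd {e : ℕ} (he : ∀ m : M, (2 * e + 1) • m = 0) (φ : B.Gr ≃* B'.Gr) : M →+ M where
  toFun g := B'.of (φ (B.el g))
  map_zero' := by
    show B'.of (φ 1) = 0
    rw [map_one, of_one]
  map_add' := iso_add he φ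

theorem isoAdd_apply {e : ℕ} (he : ∀ m : M, (2 * e + 1) • m = 0) (φ : B.Gr ≃* B'.Gr) (g : M) :
    isoAdd he φ g = B'.of (φ (B.el g)) := rfl

theorem iso_L {e : ℕ} (he : ∀ m : M, (2 * e + 1) • m = 0) (φ : B.Gr ≃* B'.Gr) (g h : M) :
    B'.L (isoAdd he φ g) (isoAdd he φ h) = isoAdd he φ (B.L g h) := by
  have h1 : B'.of (φ (B.el g * B.el h)) = B'.of (φ (B.el g) * φ (B.el h)) := by
    rw [map_mul]
  rw [of_mul] at h1
  have h2 : B.el g * B.el h = B.el (g + h + B.L g h) := rfl
  rw [h2] at h1
  have h3 := map_add (isoAdd he φ) (g + h) (B.L g h)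
  have h4 := map_add (isoAdd he φ) g h
  rw [h4] at h3
  simp only [isoAdd_apply] at h3 h1 ⊢
  rw [h1] at h3
  exact add_left_cancel h3

theorem isoAdd_surj {e : ℕ} (he : ∀ m : M, (2 * e + 1) • m = 0) (φ : B.Gr ≃* B'.Gr) :
    Function.Surjective (isoAdd he φ) := by
  intro m
  exact ⟨B.of (φ.symm (B'.el m)), by
    rw [isoAdd_apply]
    show B'.of (φ (φ.symm (B'.el m))) = m
    rw [MulEquiv.apply_symm_apply]
    rfl⟩

theorem L_ext_of_iso {e : ℕ} (he : ∀ m : M, (2 * e + 1) • m = 0) {B₀ B₁ B₂ : Br M}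
    (φ : B₀.Gr ≃* B₁.Gr) (ψ : B₀.Gr ≃* B₂.Gr) (h : isoAdd he φ = isoAdd he ψ) :
    B₁.L = B₂.L := by
  ext g g'
  obtain ⟨m, rfl⟩ := isoAdd_surj he φ g
  obtain ⟨m', rfl⟩ := isoAdd_surj he φ g'
  rw [iso_L, h, iso_L]

end Br

/-- A class of isomorphic groups in an injective family is small. -/
theorem card_class_le {M : Type} [AddCommGroup M] {e : ℕ} (he : ∀ m : M, (2 * e + 1) • m = 0)
    {T : Type} (B : T → Br M) (hB : ∀ t t', (B t).L = (B t').L → t = t') (t₀ : T)
    [Finite M] : Nat.card {t // Nonempty ((B t₀).Gr ≃* (B t).Gr)} ≤ Nat.card (M →+ M) := by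
  have : Finite (M →+ M) := Finite.of_injective (fun f : M →+ M => (f : M → M))
    DFunLike.coe_injective
  refine Nat.card_le_card_of_injective
    (fun t : {t // Nonempty ((B t₀).Gr ≃* (B t).Gr)} => Br.isoAdd he t.2.some) ?_
  intro t t' h
  apply Subtype.ext
  exact hB _ _ (Br.L_ext_of_iso he _ _ h)

/-- There are many pairwise non-isomorphic members. -/
theorem many {M : Type} [AddCommGroup M] {e : ℕ} (he : ∀ m : M, (2 * e + 1) • m = 0)
    {T : Type} [Finite T] (B : T → Br M) (hB : ∀ t t', (B t).L = (B t').L → t = t')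
    [Finite M] {N : ℕ} (hN : N * Nat.card (M →+ M) ≤ Nat.card T) :
    ∃ f : Fin N → T, ∀ i j, i ≠ j → IsEmpty ((B (f i)).Gr ≃* (B (f j)).Gr) := by
  classical
  have : Fintype T := Fintype.ofFinite T
  have : Finite (M →+ M) := Finite.of_injective (fun f : M →+ M => (f : M → M))
    DFunLike.coe_injective
  let S : Setoid T :=
    { r := fun t t' => Nonempty ((B t).Gr ≃* (B t').Gr)
      iseqv := ⟨fun t => ⟨MulEquiv.refl _⟩, fun ⟨φ⟩ => ⟨φ.symm⟩,
        fun ⟨φ⟩ ⟨ψ⟩ => ⟨φ.trans ψ⟩⟩ }
  have h1 : Fintype.card T ≤ Nat.card (M →+ M) * Fintype.card (Quotient S) := by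
    rw [← Finset.card_univ, ← Finset.card_univ]
    have h2 := Finset.card_le_mul_card_image_of_maps_to (s := (Finset.univ : Finset T))
      (t := (Finset.univ : Finset (Quotient S))) (f := fun t => (Quotient.mk S t))
      (fun _ _ => Finset.mem_univ _) (Nat.card (M →+ M)) (by
        intro a _
        obtain ⟨t₀, rfl⟩ := Quotient.exists_rep a
        have h3 := card_class_le he B hB t₀
        refine le_trans ?_ h3
        rw [Nat.card_eq_fintype_card, Fintype.card_subtype]
        refine Finset.card_le_card ?_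
        intro t ht
        rw [Finset.mem_filter] at ht ⊢
        refine ⟨Finset.mem_univ _, ?_⟩
        have h4 : S.r t t₀ := Quotient.exact ht.2
        obtain ⟨φ⟩ := h4
        exact ⟨φ.symm⟩)
    exact h2
  have hpos : 0 < Nat.card (M →+ M) := Nat.card_pos
  have h5 : N ≤ Fintype.card (Quotient S) := by
    rw [Nat.card_eq_fintype_card (α := T)] at hN
    have h6 := hN.trans h1
    rw [mul_comm] at h6
    exact Nat.le_of_mul_le_mul_left h6 hpos
  let g : Fin N → Quotient S := fun i =>
    (Fintype.equivFin (Quotient S)).symm (Fin.castLE h5 i)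
  have hg : Function.Injective g := by
    intro i j hij
    exact Fin.castLE_injective h5 ((Fintype.equivFin (Quotient S)).symm.injective hij)
  refine ⟨fun i => (g i).out, fun i j hij => ⟨fun φ => hij (hg ?_)⟩⟩
  have h7 : Quotient.mk S (g i).out = Quotient.mk S (g j).out := Quotient.sound ⟨φ⟩
  rwa [Quotient.out_eq, Quotient.out_eq] at h7

end Pool.Agent.K4H86.GW
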