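import Pool.Agent.K4H86.GW.Alg

/-!
# Good pairings exist
-/

set_option autoImplicit false
set_option linter.unusedSectionVars false

namespace Pool.Agent.K4H86.GW

open Module

variable {F : Type} [Field F] [Fintype F] {ι : Type} [Fintype ι] [DecidableEq ι] {w b : ℕ}

/-- The conditions of a system of functionals. -/
def lam {d : ℕ} (v : Fin d → Fin w → ι → F) : (ι → Fin w → F) →ₗ[F] (Fin d → F) where
  toFun h := fun e => ∑ j, ∑ l, v e j l * h l j
  map_add' h h' := by
    funext e
    simp only [Pi.add_apply, mul_add, Finset.sum_add_distrib]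
  map_smul' a h := by
    funext e
    simp only [Pi.smul_apply, smul_eq_mul, RingHom.id_apply, Finset.mul_sum]
    refine Finset.sum_congr rfl fun j _ => Finset.sum_congr rfl fun l _ => ?_
    ring

theorem lam_apply {d : ℕ} (v : Fin d → Fin w → ι → F) (h : ι → Fin w → F) (e : Fin d) :
    lam v h e = ∑ j, ∑ l, v e j l * h l j := rfl

theorem lam_surj {d : ℕ} {v : Fin d → Fin w → ι → F} (hv : LinearIndependent F v) :
    LinearMap.range (lam v) = ⊤ := by
  by_contra hne
  obtain ⟨f, hf, hle⟩ := Submodule.exists_le_ker_of_lt_top _ (lt_top_iff_ne_top.2 hne)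
  have h1 : ∑ e, f (Pi.single e 1) • v e = 0 := by
    funext j l
    have h2 := hle ⟨Pi.single l (Pi.single j 1), rfl⟩
    rw [LinearMap.mem_ker] at h2
    have h3 : lam v (Pi.single l (Pi.single j 1)) = fun e => v e j l := by
      funext e
      rw [lam_apply, Finset.sum_eq_single j, Finset.sum_eq_single l]
      · simp
      · intro l' _ hl'
        simp [hl']
      · intro h
        exact absurd (Finset.mem_univ _) h
      · intro j' _ hj'
        refine Finset.sum_eq_zero fun l' _ => ?_
        by_cases hl : l' = l
        · subst hl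
          simp [hj']
        · simp [hl]
      · intro h
        exact absurd (Finset.mem_univ _) h
    rw [h3] at h2
    have h4 : (fun e => v e j l) = ∑ e, v e j l • Pi.single (M := fun _ => F) e (1 : F) := by
      funext m
      rw [Finset.sum_apply]
      simp only [Pi.smul_apply, smul_eq_mul, Pi.single_apply, mul_ite, mul_one, mul_zero,
        Finset.sum_ite_eq, Finset.mem_univ, if_true]
    rw [h4, map_sum] at h2
    rw [Finset.sum_apply, Finset.sum_apply, Pi.zero_apply, Pi.zero_apply, ← h2]
    refine Finset.sum_congr rfl fun e _ => ?_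
    rw [map_smul, Pi.smul_apply, Pi.smul_apply, smul_eq_mul, smul_eq_mul, mul_comm]
  have h5 := Fintype.linearIndependent_iff.1 hv _ h1
  apply hf
  apply LinearMap.pi_ext'
  intro e
  ext
  simpa using h5 e

theorem card_ker_lam {d : ℕ} {v : Fin d → Fin w → ι → F} (hv : LinearIndependent F v) :
    Nat.card (LinearMap.ker (lam v)) * Fintype.card F ^ d
      = Fintype.card F ^ (Fintype.card ι * w) := by
  classical
  have h1 := LinearMap.finrank_range_add_finrank_ker (lam v)
  rw [lam_surj hv, finrank_top, Module.finrank_fintype_fun_eq_card, Fintype.card_fin] at h1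
  have h2 : finrank F (ι → Fin w → F) = Fintype.card ι * w := by
    rw [Module.finrank_pi_fintype]
    simp [Module.finrank_fintype_fun_eq_card]
  rw [h2] at h1
  rw [Nat.card_eq_fintype_card, Module.card_eq_pow_finrank (K := F), ← pow_add, ← h1,
    add_comm]

open Classical in
/-- The pairings that kill a system. -/
noncomputable def killed {d : ℕ} (v : Fin d → Fin w → ι → F) (b : ℕ) :
    Finset (Fin b → ι → Fin w → F) :=
  Finset.univ.filter fun c => ∀ e, v e ∈ Kc c

theorem card_killed {d : ℕ} {v : Fin d → Fin w → ι → F} (hv : LinearIndependent F v) :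
    (killed v b).card * Fintype.card F ^ (d * b)
      = Fintype.card F ^ (Fintype.card ι * w * b) := by
  classical
  have h1 : killed v b = Fintype.piFinset fun _ : Fin b =>
      (Finset.univ.filter fun h : ι → Fin w → F => h ∈ LinearMap.ker (lam v)) := by
    ext c
    rw [killed, Finset.mem_filter, Fintype.mem_piFinset]
    constructor
    · rintro ⟨_, h⟩ s
      rw [Finset.mem_filter]
      refine ⟨Finset.mem_univ _, ?_⟩
      rw [LinearMap.mem_ker]
      funext e
      exact h e s
    · intro h
      refine ⟨Finset.mem_univ _, fun e s => ?_⟩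
      have h2 := (Finset.mem_filter.1 (h s)).2
      rw [LinearMap.mem_ker] at h2
      exact congrFun h2 e
  have h2 : (Finset.univ.filter fun h : ι → Fin w → F => h ∈ LinearMap.ker (lam v)).card
      = Nat.card (LinearMap.ker (lam v)) := by
    rw [Nat.card_eq_fintype_card, Fintype.card_subtype]
  rw [h1, Fintype.card_piFinset_const, h2, pow_mul, ← mul_pow, card_ker_lam hv, ← pow_mul]

/-- The vectors of a datum. -/
def vec {r d : ℕ} (x : Fin r → ι → F) (m : Fin d → Fin w → Fin r → F) :
    Fin d → Fin w → ι → F := fun e j => ∑ i, m e j i • x i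

theorem exists_datum {c : Fin b → ι → Fin w → F} {K : ℕ} (hc : ¬ Good c K) :
    ∃ r ∈ Finset.Icc 1 (4 * K), ∃ (x : Fin r → ι → F)
      (m : Fin (r / 2 + 1) → Fin w → Fin r → F), LinearIndependent F (vec x m) ∧
        ∀ e, vec x m e ∈ Kc c := by
  unfold Good at hc
  push Not at hc
  obtain ⟨U, T, hU, hT, hTU, hlt⟩ := hc
  refine ⟨finrank F U, ?_, ?_⟩
  · rw [Finset.mem_Icc]
    refine ⟨?_, hU⟩
    by_contra h
    have h0 : finrank F U = 0 := by omega
    rw [Submodule.finrank_eq_zero] at h0
    have h1 : T = ⊥ := by
      rw [eq_bot_iff]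
      intro η hη
      rw [Submodule.mem_bot]
      funext j
      have h2 := hTU η hη j
      rw [h0, Submodule.mem_bot] at h2
      exact h2
    rw [h1, finrank_bot] at hlt
    omega
  · let x := Module.finBasis F U
    have hd : finrank F U / 2 + 1 ≤ finrank F T := by omega
    let y := Module.finBasis F T
    let v : Fin (finrank F U / 2 + 1) → Fin w → ι → F := fun e => (y (Fin.castLE hd e) : _)
    have hv : LinearIndependent F v := by
      have h1 : LinearIndependent F fun i => (y i : Fin w → ι → F) :=
        y.linearIndependent.map' T.subtype (Submodule.ker_subtype T)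
      exact h1.comp _ (Fin.castLE_injective hd)
    have hvU : ∀ e j, v e j ∈ U := fun e j => hTU _ (y (Fin.castLE hd e)).2 j
    refine ⟨fun i => (x i : ι → F), fun e j i => x.repr ⟨v e j, hvU e j⟩ i, ?_⟩
    have h2 : vec (fun i => (x i : ι → F)) (fun e j i => x.repr ⟨v e j, hvU e j⟩ i) = v := by
      funext e j
      rw [vec]
      have h3 := congrArg (Submodule.subtype U) (x.sum_repr ⟨v e j, hvU e j⟩)
      rw [map_sum] at h3
      exact h3
    rw [h2]
    exact ⟨hv, fun e => hT (y (Fin.castLE hd e)).2⟩

/-- **Good pairings exist.** -/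
theorem exists_good (F : Type) [Field F] [Fintype F] (ι : Type) [Fintype ι] [DecidableEq ι]
    (w K : ℕ) (hK : 4 * K < Fintype.card F ^ Fintype.card ι) :
    ∃ c : Fin (2 * Fintype.card ι + 4 * K * w) → ι → Fin w → F, Good c K := by
  classical
  by_contra hcon
  push Not at hcon
  set n := Fintype.card ι with hn
  set b := 2 * n + 4 * K * w with hb
  set q := Fintype.card F with hq
  have hq0 : 1 < q := Fintype.one_lt_card
  -- the union bound
  have h1 : (Finset.univ : Finset (Fin b → ι → Fin w → F)) ⊆
      (Finset.Icc 1 (4 * K)).biUnion fun r =>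
        ((Finset.univ : Finset ((Fin r → ι → F) × (Fin (r / 2 + 1) → Fin w → Fin r → F))).filter
          fun D => LinearIndependent F (vec D.1 D.2)).biUnion fun D =>
            killed (vec D.1 D.2) b := by
    intro c _
    obtain ⟨r, hr, x, m, hv, hk⟩ := exists_datum (hcon c)
    rw [Finset.mem_biUnion]
    refine ⟨r, hr, ?_⟩
    rw [Finset.mem_biUnion]
    refine ⟨(x, m), ?_, ?_⟩
    · rw [Finset.mem_filter]
      exact ⟨Finset.mem_univ _, hv⟩
    · rw [killed, Finset.mem_filter]
      exact ⟨Finset.mem_univ _, hk⟩
  have h2 := Finset.card_le_card h1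
  have hcu : (Finset.univ : Finset (Fin b → ι → Fin w → F)).card = q ^ (n * w * b) := by
    rw [Finset.card_univ, Fintype.card_fun, Fintype.card_fun, Fintype.card_fun,
      Fintype.card_fin, Fintype.card_fin, ← pow_mul, ← pow_mul]
    congr 1
    ring
  have h3 : ∀ r ∈ Finset.Icc 1 (4 * K),
      (((Finset.univ : Finset ((Fin r → ι → F) ×
        (Fin (r / 2 + 1) → Fin w → Fin r → F))).filter
          fun D => LinearIndependent F (vec D.1 D.2)).biUnion fun D =>
            killed (vec D.1 D.2) b).card * q ^ n ≤ q ^ (n * w * b) := by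
    intro r hr
    rw [Finset.mem_Icc] at hr
    set d := r / 2 + 1 with hd
    have hd2 : r + 1 ≤ 2 * d := by omega
    have h4 : ∀ D ∈ ((Finset.univ : Finset ((Fin r → ι → F) ×
        (Fin d → Fin w → Fin r → F))).filter
          fun D => LinearIndependent F (vec D.1 D.2)),
        (killed (vec D.1 D.2) b).card * q ^ (n * r + d * w * r + n) ≤ q ^ (n * w * b) := by
      intro D hD
      have h5 := card_killed (b := b) (Finset.mem_filter.1 hD).2
      rw [← hq, ← hn] at h5
      rw [← h5]
      refine Nat.mul_le_mul_left _ (Nat.pow_le_pow_right hq0.le ?_)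
      rw [hb]
      have h6 : n * (r + 1) ≤ n * (2 * d) := Nat.mul_le_mul_left _ hd2
      have h7 : d * w * r ≤ d * w * (4 * K) := Nat.mul_le_mul_left _ hr.2
      nlinarith
    have hcd : (((Finset.univ : Finset ((Fin r → ι → F) ×
        (Fin d → Fin w → Fin r → F))).filter
          fun D => LinearIndependent F (vec D.1 D.2))).card ≤ q ^ (n * r + d * w * r) := by
      refine (Finset.card_filter_le _ _).trans ?_
      rw [Finset.card_univ, Fintype.card_prod, Fintype.card_fun, Fintype.card_fun,
        Fintype.card_fun, Fintype.card_fun, Fintype.card_fun, Fintype.card_fin,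
        Fintype.card_fin, Fintype.card_fin, ← pow_mul, ← pow_mul, ← pow_mul, ← pow_add]
      refine le_of_eq ?_
      congr 1
      ring
    -- compare
    have h8 : (((Finset.univ : Finset ((Fin r → ι → F) ×
        (Fin d → Fin w → Fin r → F))).filter
          fun D => LinearIndependent F (vec D.1 D.2)).biUnion fun D =>
            killed (vec D.1 D.2) b).card * q ^ (n * r + d * w * r + n)
        ≤ q ^ (n * r + d * w * r) * q ^ (n * w * b) := by
      calc _ ≤ (∑ D ∈ ((Finset.univ : Finset ((Fin r → ι → F) ×
            (Fin d → Fin w → Fin r → F))).filter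
              fun D => LinearIndependent F (vec D.1 D.2)),
                (killed (vec D.1 D.2) b).card) * q ^ (n * r + d * w * r + n) :=
            Nat.mul_le_mul_right _ Finset.card_biUnion_le
        _ = ∑ D ∈ ((Finset.univ : Finset ((Fin r → ι → F) ×
            (Fin d → Fin w → Fin r → F))).filter
              fun D => LinearIndependent F (vec D.1 D.2)),
                (killed (vec D.1 D.2) b).card * q ^ (n * r + d * w * r + n) :=
            Finset.sum_mul _ _ _
        _ ≤ ∑ D ∈ ((Finset.univ : Finset ((Fin r → ι → F) ×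
            (Fin d → Fin w → Fin r → F))).filter
              fun D => LinearIndependent F (vec D.1 D.2)), q ^ (n * w * b) :=
            Finset.sum_le_sum h4
        _ = _ * q ^ (n * w * b) := by rw [Finset.sum_const, smul_eq_mul]
        _ ≤ _ := Nat.mul_le_mul_right _ hcd
    rw [pow_add _ (n * r + d * w * r) n, mul_comm (q ^ (n * r + d * w * r)) (q ^ n),
      ← mul_assoc, mul_comm (q ^ (n * r + d * w * r)) (q ^ (n * w * b))] at h8
    exact Nat.le_of_mul_le_mul_right h8 (pow_pos (by omega) _)
  have h9 : q ^ (n * w * b) * q ^ n ≤ 4 * K * q ^ (n * w * b) := by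
    rw [← hcu]
    calc _ ≤ ((Finset.Icc 1 (4 * K)).biUnion fun r =>
        ((Finset.univ : Finset ((Fin r → ι → F) × (Fin (r / 2 + 1) → Fin w → Fin r → F))).filter
          fun D => LinearIndependent F (vec D.1 D.2)).biUnion fun D =>
            killed (vec D.1 D.2) b).card * q ^ n := Nat.mul_le_mul_right _ h2
      _ ≤ (∑ r ∈ Finset.Icc 1 (4 * K), (((Finset.univ : Finset ((Fin r → ι → F) ×
          (Fin (r / 2 + 1) → Fin w → Fin r → F))).filter
          fun D => LinearIndependent F (vec D.1 D.2)).biUnion fun D =>
            killed (vec D.1 D.2) b).card) * q ^ n :=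
          Nat.mul_le_mul_right _ Finset.card_biUnion_le
      _ = ∑ r ∈ Finset.Icc 1 (4 * K), (((Finset.univ : Finset ((Fin r → ι → F) ×
          (Fin (r / 2 + 1) → Fin w → Fin r → F))).filter
          fun D => LinearIndependent F (vec D.1 D.2)).biUnion fun D =>
            killed (vec D.1 D.2) b).card * q ^ n := Finset.sum_mul _ _ _
      _ ≤ ∑ r ∈ Finset.Icc 1 (4 * K), q ^ (n * w * b) := Finset.sum_le_sum h3
      _ = 4 * K * q ^ (n * w * b) := by
          rw [Finset.sum_const, smul_eq_mul, Nat.card_Icc]
          simp
      _ = _ := by rw [hcu]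
  have h10 : q ^ n ≤ 4 * K := by
    have h11 : 0 < q ^ (n * w * b) := pow_pos (by omega) _
    rw [mul_comm (4 * K)] at h9
    exact Nat.le_of_mul_le_mul_left h9 h11
  omega

end Pool.Agent.K4H86.GW
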