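import Mathlib

/-!
# The Weisfeiler-Leman algorithm for groups

Version II of Brachter and Schweitzer (On the Weisfeiler-Leman dimension of finite groups,
LICS 2020): the initial colour of a `k`-tuple is the isomorphism type of the subgroup generated by
it together with the tuple, and in each round the colour of a tuple is refined by the multiset,
over all elements `x` of the group, of the `k`-tuples of the colours of the tuples obtained by
replacing one of the `k` entries by `x`.
-/

set_option autoImplicit false

namespace Pool.Agent.K4H86.GW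

/-- The tuples `g` and `h` have the same initial colour: `g i ↦ h i` extends to an isomorphism of
the generated subgroups. -/
def SameStart {k : ℕ} {G H : Type} [Group G] [Group H] (g : Fin k → G) (h : Fin k → H) : Prop :=
  ∃ φ : Subgroup.closure (Set.range g) ≃* Subgroup.closure (Set.range h),
    ∀ i, (φ ⟨g i, Subgroup.subset_closure ⟨i, rfl⟩⟩ : H) = h i

/-- The tuples `g` and `h` have the same colour after `n` rounds. Two multisets of `k`-tuples of
colours, indexed by the elements of `G` and of `H`, are equal exactly when some bijection `σ` of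
`G` with `H` matches them. -/
def SameColour {k : ℕ} {G H : Type} [Group G] [Group H] :
    ℕ → (Fin k → G) → (Fin k → H) → Prop
  | 0, g, h => SameStart g h
  | n + 1, g, h => SameColour n g h ∧ ∃ σ : G ≃ H, ∀ x i,
      SameColour n (Function.update g i x) (Function.update h i (σ x))

/-- The `k`-dimensional Weisfeiler-Leman algorithm does not distinguish `G` and `H`: after each
number of rounds the multisets of the colours of the `k`-tuples of `G` and of `H` are equal. -/
def WLEquiv (k : ℕ) (G H : Type) [Group G] [Group H] : Prop :=
  ∀ n, ∃ τ : (Fin k → G) ≃ (Fin k → H), ∀ g, SameColour n g (τ g)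

/-- Tuples that satisfy the same words have the same initial colour. -/
theorem sameStart_of_words {k : ℕ} {G H : Type} [Group G] [Group H] {g : Fin k → G}
    {h : Fin k → H} (hw : ∀ v : FreeGroup (Fin k), FreeGroup.lift g v = 1 ↔
      FreeGroup.lift h v = 1) : SameStart g h := by
  have hker : (FreeGroup.lift g).ker = (FreeGroup.lift h).ker := by
    ext v
    rw [MonoidHom.mem_ker, MonoidHom.mem_ker]
    exact hw v
  have hg : (FreeGroup.lift g).range = Subgroup.closure (Set.range g) :=
    FreeGroup.range_lift_eq_closure
  have hh : (FreeGroup.lift h).range = Subgroup.closure (Set.range h) :=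
    FreeGroup.range_lift_eq_closure
  let e1 := QuotientGroup.quotientKerEquivRange (FreeGroup.lift g)
  let e2 := QuotientGroup.quotientKerEquivRange (FreeGroup.lift h)
  let e3 := QuotientGroup.quotientMulEquivOfEq hker
  let φ : Subgroup.closure (Set.range g) ≃* Subgroup.closure (Set.range h) :=
    (MulEquiv.subgroupCongr hg.symm).trans ((e1.symm.trans (e3.trans e2)).trans
      (MulEquiv.subgroupCongr hh))
  refine ⟨φ, fun i => ?_⟩
  have h1 : e1.symm ⟨g i, hg ▸ Subgroup.subset_closure ⟨i, rfl⟩⟩
      = (QuotientGroup.mk (FreeGroup.of i)) := by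
    rw [MulEquiv.symm_apply_eq]
    apply Subtype.ext
    show g i = FreeGroup.lift g (FreeGroup.of i)
    rw [FreeGroup.lift_apply_of]
  show ((MulEquiv.subgroupCongr hh) (e2 (e3 (e1.symm ⟨g i, _⟩))) : H) = h i
  rw [h1]
  show FreeGroup.lift h (FreeGroup.of i) = h i
  rw [FreeGroup.lift_apply_of]

/-- A family of pairs of tuples that is closed under the moves of the game. -/
theorem wlEquiv_of_family {k : ℕ} {G H : Type} [Group G] [Group H]
    (R : (Fin k → G) → (Fin k → H) → Prop) (h0 : ∀ g h, R g h → SameStart g h)
    (h1 : ∀ g h, R g h → ∃ σ : G ≃ H, ∀ x i,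
      R (Function.update g i x) (Function.update h i (σ x)))
    (h2 : ∃ τ : (Fin k → G) ≃ (Fin k → H), ∀ g, R g (τ g)) : WLEquiv k G H := by
  have h3 : ∀ n g h, R g h → SameColour n g h := by
    intro n
    induction n with
    | zero => exact h0
    | succ n ih =>
      intro g h hR
      refine ⟨ih g h hR, ?_⟩
      obtain ⟨σ, hσ⟩ := h1 g h hR
      exact ⟨σ, fun x i => ih _ _ (hσ x i)⟩
  obtain ⟨τ, hτ⟩ := h2
  exact fun n => ⟨τ, fun g => h3 n _ _ (hτ g)⟩

end Pool.Agent.K4H86.GW
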