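import Pool.Agent.K4H86.GW.Grp
import Pool.Agent.K4H86.GW.Cnt

/-!
# Counting isomorphisms and the final theorem
-/

set_option autoImplicit false
set_option linter.unusedSectionVars false

namespace Pool.Agent.K4H86.GW

open Module

/-- The twist of a block matrix. -/
def tw {F : Type} [Field F] {a w : ℕ} (D : Fin a → Fin a → Fin w → F) :
    (Fin a ⊕ Fin a) → (Fin a ⊕ Fin a) → Fin w → F
  | Sum.inl i, Sum.inr l => D i l
  | _, _ => 0

theorem bb_single {F ι : Type} [Field F] [Fintype ι] [DecidableEq ι] {w : ℕ}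
    (β : ι → ι → Fin w → F) (i l : ι) :
    bb β (Pi.single i 1) (Pi.single l 1) = β i l := by
  funext j
  rw [bb, Finset.sum_eq_single i, Finset.sum_eq_single l]
  · simp
  · intro l' _ hl'
    simp [hl']
  · intro h
    exact absurd (Finset.mem_univ _) h
  · intro i' _ hi'
    refine Finset.sum_eq_zero fun l' _ => ?_
    simp [hi']
  · intro h
    exact absurd (Finset.mem_univ _) h

theorem tw_inj {F : Type} [Field F] {a w b : ℕ}
    (c : Fin b → (Fin a ⊕ Fin a) → Fin w → F) (D D' : Fin a → Fin a → Fin w → F)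
    (h : (BB c (tw D)).L = (BB c (tw D')).L) : D = D' := by
  funext i l
  have h1 := DFunLike.congr_fun (DFunLike.congr_fun h
    ((Pi.single (Sum.inl i) 1, 0, 0) : MM F (Fin a ⊕ Fin a) w b))
    ((Pi.single (Sum.inr l) 1, 0, 0) : MM F (Fin a ⊕ Fin a) w b)
  have h2 : ∀ D : Fin a → Fin a → Fin w → F,
      br c (tw D) ((Pi.single (Sum.inl i) 1, 0, 0) : MM F (Fin a ⊕ Fin a) w b)
        ((Pi.single (Sum.inr l) 1, 0, 0) : MM F (Fin a ⊕ Fin a) w b) = D i l := by
    intro D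
    have h3 : ∀ x : (Fin a ⊕ Fin a) → F, cc c (0 : Fin b → F) x = 0 := by
      intro x
      funext j
      simp [cc]
    rw [br, bb_single, bb_single, h3, h3]
    simp [tw]
  have h4 : ((0, 0, br c (tw D) ((Pi.single (Sum.inl i) 1, 0, 0) : MM F (Fin a ⊕ Fin a) w b)
        ((Pi.single (Sum.inr l) 1, 0, 0) : MM F (Fin a ⊕ Fin a) w b)) :
          MM F (Fin a ⊕ Fin a) w b)
      = (0, 0, br c (tw D') ((Pi.single (Sum.inl i) 1, 0, 0) : MM F (Fin a ⊕ Fin a) w b)
        ((Pi.single (Sum.inr l) 1, 0, 0) : MM F (Fin a ⊕ Fin a) w b)) := h1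
  rw [h2, h2, Prod.mk.injEq, Prod.mk.injEq] at h4
  exact h4.2.2

theorem finrank_MM (F ι : Type) [Field F] [Fintype ι] (w b : ℕ) :
    finrank F (MM F ι w b) = Fintype.card ι + b + w := by
  rw [Module.finrank_prod, Module.finrank_prod, Module.finrank_fintype_fun_eq_card,
    Module.finrank_fintype_fun_eq_card, Module.finrank_fintype_fun_eq_card, Fintype.card_fin,
    Fintype.card_fin, add_assoc]

theorem card_MM (p : ℕ) [Fact p.Prime] (ι : Type) [Fintype ι] [DecidableEq ι] (w b : ℕ) :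
    Nat.card (MM (ZMod p) ι w b) = p ^ (Fintype.card ι + b + w) := by
  rw [Nat.card_prod, Nat.card_prod]
  simp only [Nat.card_eq_fintype_card, Fintype.card_fun, ZMod.card, Fintype.card_fin]
  rw [← pow_add, ← pow_add, add_assoc]

theorem card_hom (p : ℕ) [Fact p.Prime] (M : Type) [AddCommGroup M] [Module (ZMod p) M]
    [Finite M] : Nat.card (M →+ M) = p ^ (finrank (ZMod p) M * finrank (ZMod p) M) := by
  classical
  have h0 : Module.Finite (ZMod p) M := Module.Finite.of_finite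
  have h1 : Nat.card (M →+ M) = Nat.card (M →ₗ[ZMod p] M) := by
    refine Nat.card_congr ?_
    exact
      { toFun := fun f => f.toZModLinearMap p
        invFun := fun f => f.toAddMonoidHom
        left_inv := fun f => rfl
        right_inv := fun f => rfl }
  have h2 : Finite (M →ₗ[ZMod p] M) :=
    Finite.of_injective (fun f : M →ₗ[ZMod p] M => (f : M → M)) DFunLike.coe_injective
  have h3 : Fintype (M →ₗ[ZMod p] M) := Fintype.ofFinite _
  rw [h1, Nat.card_eq_fintype_card, Module.card_eq_pow_finrank (K := ZMod p), ZMod.card,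
    Module.finrank_linearMap]

theorem odd_exp {p : ℕ} [Fact p.Prime] (hp : p ≠ 2) {M : Type} [AddCommGroup M]
    [Module (ZMod p) M] (m : M) : (2 * (p / 2) + 1) • m = 0 := by
  have h1 : p % 2 = 1 := (Nat.Prime.eq_two_or_odd (Fact.out : p.Prime)).resolve_left hp
  have h2 : 2 * (p / 2) + 1 = p := by omega
  rw [h2, ← Nat.cast_smul_eq_nsmul (ZMod p), ZMod.natCast_self, zero_smul]

theorem main_gen (p : ℕ) [Fact p.Prime] (hp : p ≠ 2) (k K a w m : ℕ) (hK : k + 1 ≤ K)
    (h4 : 4 * K < p ^ (2 * a)) (hmv : m = 2 * a + (2 * (2 * a) + 4 * K * w) + w)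
    (hsize : k ^ 2 + m * m ≤ a * a * w) :
    ∃ (G : Fin (p ^ k ^ 2) → Type) (_ : ∀ i, Group (G i)),
      (∀ i, Nat.card (G i) = p ^ m) ∧
      (∀ i (g : G i), g ^ p = 1) ∧
      (∀ i (g h l : G i), (g * h * g⁻¹ * h⁻¹) * l = l * (g * h * g⁻¹ * h⁻¹)) ∧
      (∀ i j, i ≠ j → IsEmpty (G i ≃* G j)) ∧
      ∀ i j, WLEquiv k (G i) (G j) := by
  have hp0 : 0 < p := (Fact.out : p.Prime).pos
  have hcard : Fintype.card (Fin a ⊕ Fin a) = 2 * a := by
    rw [Fintype.card_sum, Fintype.card_fin]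
    ring
  obtain ⟨c, hc⟩ := exists_good (ZMod p) (Fin a ⊕ Fin a) w K (by
    rw [hcard, ZMod.card]
    exact h4)
  have hm : m = Fintype.card (Fin a ⊕ Fin a)
      + (2 * Fintype.card (Fin a ⊕ Fin a) + 4 * K * w) + w := by
    rw [hcard]
    exact hmv
  obtain ⟨f, hf⟩ := many
    (M := MM (ZMod p) (Fin a ⊕ Fin a) w (2 * Fintype.card (Fin a ⊕ Fin a) + 4 * K * w))
    (e := p / 2) (odd_exp hp)
    (T := Fin a → Fin a → Fin w → ZMod p) (fun D => BB c (tw D)) (fun D D' h => tw_inj c D D' h)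
    (N := p ^ k ^ 2) (by
      rw [card_hom p, finrank_MM, ← hm]
      have h1 : Nat.card (Fin a → Fin a → Fin w → ZMod p) = p ^ (a * a * w) := by
        simp only [Nat.card_eq_fintype_card, Fintype.card_fun, ZMod.card, Fintype.card_fin]
        rw [← pow_mul, ← pow_mul]
        congr 1
        ring
      rw [h1, ← pow_add]
      exact Nat.pow_le_pow_right hp0 hsize)
  refine ⟨fun i => (BB c (tw (f i))).Gr, fun i => inferInstance, ?_, ?_, ?_, hf, ?_⟩
  · intro i
    rw [hm]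
    exact card_MM p (Fin a ⊕ Fin a) w _
  · intro i g
    apply Br.of_inj
    rw [Br.of_pow, Br.of_one, ← Nat.cast_smul_eq_nsmul (ZMod p), ZMod.natCast_self, zero_smul]
  · intro i g h l
    exact Br.comm_central _ g h l
  · intro i j
    exact wlEquiv_twist hc _ _ hK

theorem main (p : ℕ) [Fact p.Prime] (hp : p ≠ 2) (k : ℕ) (hk : 1 ≤ k) :
    ∃ m ≤ 2500 * k, ∃ (G : Fin (p ^ k ^ 2) → Type) (_ : ∀ i, Group (G i)),
      (∀ i, Nat.card (G i) = p ^ m) ∧
      (∀ i (g : G i), g ^ p = 1) ∧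
      (∀ i (g h l : G i), (g * h * g⁻¹ * h⁻¹) * l = l * (g * h * g⁻¹ * h⁻¹)) ∧
      (∀ i j, i ≠ j → IsEmpty (G i ≃* G j)) ∧
      ∀ i j, WLEquiv k (G i) (G j) := by
  have hp3 : 3 ≤ p := by
    have h2 := (Fact.out : p.Prime).two_le
    omega
  have h1 : 2 * (136 * (k + 1)) < p ^ (2 * (136 * (k + 1))) := Nat.lt_pow_self (by omega)
  refine ⟨2 * (136 * (k + 1)) + (2 * (2 * (136 * (k + 1))) + 4 * (k + 1) * 81) + 81,
    by omega, main_gen p hp k (k + 1) (136 * (k + 1)) 81 _ le_rfl (by omega) rfl ?_⟩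
  nlinarith

end Pool.Agent.K4H86.GW
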