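import Pool.Agent.K4H86.GW.Alg
import Pool.Agent.K4H86.GW.Baer
import Pool.Agent.K4H86.GW.Def

/-!
# The twisted groups and the strategy
-/

set_option autoImplicit false
set_option linter.unusedSectionVars false

namespace Pool.Agent.K4H86.GW

open Module

variable {F : Type} [Field F] {ι : Type} [Fintype ι] [DecidableEq ι] {w b : ℕ}

/-- The underlying abelian group. -/
abbrev MM (F ι : Type) (w b : ℕ) : Type := (ι → F) × (Fin b → F) × (Fin w → F)

theorem bb_add_left (β : ι → ι → Fin w → F) (x x' y : ι → F) :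
    bb β (x + x') y = bb β x y + bb β x' y := by
  funext j
  simp only [bb, Pi.add_apply, add_mul, mul_add, Finset.sum_add_distrib]

theorem bb_add_right (β : ι → ι → Fin w → F) (x y y' : ι → F) :
    bb β x (y + y') = bb β x y + bb β x y' := by
  funext j
  simp only [bb, Pi.add_apply, mul_add, Finset.sum_add_distrib]

theorem cc_add_left (c : Fin b → ι → Fin w → F) (u u' : Fin b → F) (y : ι → F) :
    cc c (u + u') y = cc c u y + cc c u' y := by
  funext j
  simp only [cc, Pi.add_apply, add_mul, Finset.sum_add_distrib]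

theorem cc_add_right (c : Fin b → ι → Fin w → F) (u : Fin b → F) (y y' : ι → F) :
    cc c u (y + y') = cc c u y + cc c u y' := by
  funext j
  simp only [cc, Pi.add_apply, mul_add, Finset.sum_add_distrib]

theorem bb_sub (β β' : ι → ι → Fin w → F) (x y : ι → F) :
    bb (β - β') x y = bb β x y - bb β' x y := by
  funext j
  simp only [bb, Pi.sub_apply, sub_mul, Finset.sum_sub_distrib]

/-- The bracket. -/
def br (c : Fin b → ι → Fin w → F) (β : ι → ι → Fin w → F) (g h : MM F ι w b) : Fin w → F :=
  bb β g.1 h.1 - bb β h.1 g.1 + cc c g.2.1 h.1 - cc c h.2.1 g.1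

theorem br_add_left (c : Fin b → ι → Fin w → F) (β : ι → ι → Fin w → F)
    (g g' h : MM F ι w b) : br c β (g + g') h = br c β g h + br c β g' h := by
  simp only [br, Prod.fst_add, Prod.snd_add, bb_add_left, bb_add_right, cc_add_left,
    cc_add_right]
  abel

theorem br_add_right (c : Fin b → ι → Fin w → F) (β : ι → ι → Fin w → F)
    (g h h' : MM F ι w b) : br c β g (h + h') = br c β g h + br c β g h' := by
  simp only [br, Prod.fst_add, Prod.snd_add, bb_add_left, bb_add_right, cc_add_left,
    cc_add_right]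
  abel

/-- The bracket as a map into the group. -/
def brM (c : Fin b → ι → Fin w → F) (β : ι → ι → Fin w → F) :
    MM F ι w b →+ MM F ι w b →+ MM F ι w b :=
  AddMonoidHom.mk' (fun g => AddMonoidHom.mk' (fun h => (0, 0, br c β g h)) (by
    intro h h'
    rw [br_add_right]
    simp)) (by
    intro g g'
    ext h : 1
    show ((0, 0, br c β (g + g') h) : MM F ι w b) = (0, 0, br c β g h) + (0, 0, br c β g' h)
    rw [br_add_left]
    simp)

theorem brM_apply (c : Fin b → ι → Fin w → F) (β : ι → ι → Fin w → F) (g h : MM F ι w b) :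
    brM c β g h = (0, 0, br c β g h) := rfl

theorem br_central (c : Fin b → ι → Fin w → F) (β : ι → ι → Fin w → F) (z : Fin w → F)
    (h : MM F ι w b) : br c β (0, 0, z) h = 0 := by
  have h1 : bb β (0 : ι → F) h.1 = 0 := by
    funext j
    simp [bb]
  have h2 : bb β h.1 (0 : ι → F) = 0 := by
    funext j
    simp [bb]
  have h3 : cc c (0 : Fin b → F) h.1 = 0 := by
    funext j
    simp [cc]
  have h4 : cc c h.2.1 (0 : ι → F) = 0 := by
    funext j
    simp [cc]
  simp only [br, h1, h2, h3, h4]
  simp

/-- The bracket structure. -/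
def BB (c : Fin b → ι → Fin w → F) (β : ι → ι → Fin w → F) : Br (MM F ι w b) where
  L := brM c β
  alt g := by
    rw [brM_apply, br]
    simp
  nil g h k := by
    rw [brM_apply, brM_apply, br_central]
    rfl

/-- The action of a map `A → B`. -/
def act (γ : ι → Fin b → F) : MM F ι w b → MM F ι w b := fun g => (g.1, g.2.1 + ap γ g.1, g.2.2)

theorem act_inj (γ : ι → Fin b → F) : Function.Injective (act (w := w) γ) := by
  intro g h hgh
  have h0 := hgh
  rw [act, act, Prod.mk.injEq, Prod.mk.injEq] at h0
  obtain ⟨h1, h2, h3⟩ := h0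
  rw [h1] at h2
  exact Prod.ext h1 (Prod.ext (add_right_cancel h2) h3)

theorem act_zero (γ : ι → Fin b → F) : act (w := w) γ 0 = 0 := by
  rw [act]
  simp [ap_zero]

theorem act_add (γ : ι → Fin b → F) (g h : MM F ι w b) : act γ (g + h) = act γ g + act γ h := by
  simp only [act, Prod.fst_add, Prod.snd_add, ap_add]
  refine Prod.ext rfl (Prod.ext ?_ rfl)
  show g.2.1 + h.2.1 + (ap γ g.1 + ap γ h.1) = g.2.1 + ap γ g.1 + (h.2.1 + ap γ h.1)
  abel

theorem act_neg (γ : ι → Fin b → F) (g : MM F ι w b) : act γ (-g) = -act γ g := by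
  have h1 := act_add γ g (-g)
  rw [add_neg_cancel, act_zero] at h1
  exact (neg_eq_of_add_eq_zero_right h1.symm).symm

theorem br_act {c : Fin b → ι → Fin w → F} {K : ℕ} (hK : 1 ≤ K) {β β' : ι → ι → Fin w → F}
    {W : Submodule F (ι → F)} {γ : ι → Fin b → F} (hγ : γ ∈ Sol c K (β - β') W)
    {g h : MM F ι w b} (hg : g.1 ∈ W) (hh : h.1 ∈ W) :
    br c β' (act γ g) (act γ h) = br c β g h := by
  have h1 := local_eq hK hγ hg hh
  rw [bb_sub, bb_sub] at h1
  simp only [br, act, cc_add_left]
  have h2 : cc c (ap γ g.1) h.1 = cc c (ap γ h.1) g.1 + (bb β g.1 h.1 - bb β' g.1 h.1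
      - (bb β h.1 g.1 - bb β' h.1 g.1)) := by
    rw [← h1]
    abel
  rw [h2]
  abel

theorem brM_act {c : Fin b → ι → Fin w → F} {K : ℕ} (hK : 1 ≤ K) {β β' : ι → ι → Fin w → F}
    {W : Submodule F (ι → F)} {γ : ι → Fin b → F} (hγ : γ ∈ Sol c K (β - β') W)
    {g h : MM F ι w b} (hg : g.1 ∈ W) (hh : h.1 ∈ W) :
    (BB c β').L (act γ g) (act γ h) = act γ ((BB c β).L g h) := by
  show brM c β' (act γ g) (act γ h) = act γ (brM c β g h)
  rw [brM_apply, brM_apply, br_act hK hγ hg hh, act]
  simp [ap_zero]

/-- The span of the `A`-parts of a tuple. -/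
def sp {k : ℕ} (g : Fin k → MM F ι w b) : Submodule F (ι → F) :=
  Submodule.span F (Set.range fun i => (g i).1)

theorem mem_sp {k : ℕ} (g : Fin k → MM F ι w b) (i : Fin k) : (g i).1 ∈ sp g :=
  Submodule.subset_span ⟨i, rfl⟩

theorem finrank_sp {k : ℕ} (g : Fin k → MM F ι w b) : finrank F (sp g) ≤ k := by
  have h := finrank_range_le_card (R := F) fun i => (g i).1
  rwa [Fintype.card_fin] at h

/-- The relation of the strategy. -/
def Rel (c : Fin b → ι → Fin w → F) (K : ℕ) (β β' : ι → ι → Fin w → F) {k : ℕ}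
    (g : Fin k → (BB c β).Gr) (h : Fin k → (BB c β').Gr) : Prop :=
  ∃ γ ∈ Sol c K (β - β') (sp fun i => (BB c β).of (g i)),
    ∀ i, (BB c β').of (h i) = act γ ((BB c β).of (g i))

theorem Rel.start {c : Fin b → ι → Fin w → F} {K : ℕ} (hK : 1 ≤ K)
    {β β' : ι → ι → Fin w → F} {k : ℕ} {g : Fin k → (BB c β).Gr} {h : Fin k → (BB c β').Gr}
    (hR : Rel c K β β' g h) : SameStart g h := by
  obtain ⟨γ, hγ, hh⟩ := hR
  apply sameStart_of_words
  set W := sp fun i => (BB c β).of (g i) with hW
  have key : ∀ v : FreeGroup (Fin k), ((BB c β).of (FreeGroup.lift g v)).1 ∈ W ∧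
      (BB c β').of (FreeGroup.lift h v) = act γ ((BB c β).of (FreeGroup.lift g v)) := by
    intro v
    induction v using FreeGroup.induction_on with
    | C1 =>
      rw [map_one, map_one, Br.of_one, Br.of_one]
      exact ⟨Submodule.zero_mem _, (act_zero γ).symm⟩
    | of i =>
      rw [FreeGroup.lift_apply_of, FreeGroup.lift_apply_of]
      exact ⟨mem_sp _ i, hh i⟩
    | inv_of i _ =>
      rw [map_inv, map_inv, FreeGroup.lift_apply_of, FreeGroup.lift_apply_of, Br.of_inv,
        Br.of_inv, hh i, act_neg]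
      exact ⟨Submodule.neg_mem _ (mem_sp _ i), rfl⟩
    | mul v v' ih ih' =>
      rw [map_mul, map_mul, Br.of_mul, Br.of_mul, ih.2, ih'.2, brM_act hK hγ ih.1 ih'.1,
        act_add, act_add]
      refine ⟨?_, rfl⟩
      have h1 : ((BB c β).of (FreeGroup.lift g v) + (BB c β).of (FreeGroup.lift g v')
          + (BB c β).L ((BB c β).of (FreeGroup.lift g v))
            ((BB c β).of (FreeGroup.lift g v'))).1
          = ((BB c β).of (FreeGroup.lift g v)).1 + ((BB c β).of (FreeGroup.lift g v')).1 := by
        show _ + _ + (0 : ι → F) = _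
        rw [add_zero]
      rw [h1]
      exact Submodule.add_mem _ ih.1 ih'.1
  intro v
  have h1 := (key v).2
  constructor
  · intro h2
    rw [h2, Br.of_one, act_zero] at h1
    exact h1
  · intro h2
    rw [h2, Br.of_one] at h1
    have h3 : act γ ((BB c β).of (FreeGroup.lift g v)) = act γ 0 := by
      rw [act_zero, ← h1]
    exact act_inj γ h3

/-- A bijection from maps chosen according to the `A`-part. -/
noncomputable def glue (γ : (ι → F) → (ι → Fin b → F)) : MM F ι w b ≃ MM F ι w b where
  toFun g := act (γ g.1) g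
  invFun g := act (-γ g.1) g
  left_inv g := by
    simp only [act, ap_neg_left]
    simp
  right_inv g := by
    simp only [act, ap_neg_left]
    simp

theorem Rel.step {c : Fin b → ι → Fin w → F} {K : ℕ} (hc : Good c K)
    {β β' : ι → ι → Fin w → F} {k : ℕ} (hk : k + 1 ≤ K) {g : Fin k → (BB c β).Gr}
    {h : Fin k → (BB c β').Gr} (hR : Rel c K β β' g h) :
    ∃ σ : (BB c β).Gr ≃ (BB c β').Gr, ∀ x i,
      Rel c K β β' (Function.update g i x) (Function.update h i (σ x)) := by
  obtain ⟨γ₀, hγ₀, hh⟩ := hR
  set W := sp fun i => (BB c β).of (g i) with hW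
  have hdim : ∀ x : ι → F, finrank F ↥(W ⊔ Submodule.span F {x}) ≤ K := by
    intro x
    have h1 := Submodule.finrank_add_le_finrank_add_finrank W (Submodule.span F {x})
    have h2 := finrank_sp fun i => (BB c β).of (g i)
    have h3 : finrank F (Submodule.span F ({x} : Set (ι → F))) ≤ 1 := by
      have h4 := finrank_range_le_card (R := F) fun _ : Unit => x
      rw [Set.range_const, Fintype.card_unit] at h4
      exact h4
    rw [← hW] at h2
    omega
  choose γ hγ hγ' using fun x : ι → F => extend hc (β - β') (hdim x) hγ₀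
  refine ⟨glue γ, fun x i => ?_⟩
  refine ⟨γ ((BB c β).of x).1, ?_, ?_⟩
  · refine Sol_anti c K _ ?_ (hγ ((BB c β).of x).1)
    rw [sp, Submodule.span_le]
    rintro _ ⟨i', rfl⟩
    by_cases hi : i' = i
    · rw [hi]
      show ((BB c β).of (Function.update g i x i)).1 ∈ _
      rw [Function.update_self]
      exact Submodule.mem_sup_right (Submodule.mem_span_singleton_self _)
    · show ((BB c β).of (Function.update g i x i')).1 ∈ _
      rw [Function.update_of_ne hi]
      exact Submodule.mem_sup_left (mem_sp (fun i => (BB c β).of (g i)) i')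
  · intro i'
    by_cases hi : i' = i
    · rw [hi, Function.update_self, Function.update_self]
      rfl
    · rw [Function.update_of_ne hi, Function.update_of_ne hi, hh i', act, act,
        hγ' _ _ (mem_sp (fun i => (BB c β).of (g i)) i')]

theorem exists_tau {c : Fin b → ι → Fin w → F} {K : ℕ} (hc : Good c K)
    (β β' : ι → ι → Fin w → F) {k : ℕ} (hk : k ≤ K) :
    ∃ τ : (Fin k → (BB c β).Gr) ≃ (Fin k → (BB c β').Gr), ∀ g, Rel c K β β' g (τ g) := by
  have h1 : ∀ x : Fin k → ι → F,
      ∃ γ : ι → Fin b → F, γ ∈ Sol c K (β - β') (Submodule.span F (Set.range x)) := by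
    intro x
    apply exists_sol hc
    have h2 := finrank_range_le_card (R := F) x
    rw [Fintype.card_fin] at h2
    exact h2.trans hk
  choose γ hγ using h1
  let τ : (Fin k → (BB c β).Gr) ≃ (Fin k → (BB c β').Gr) :=
    { toFun := fun g i => (BB c β').el
        (act (γ fun i => ((BB c β).of (g i)).1) ((BB c β).of (g i)))
      invFun := fun g i => (BB c β).el
        (act (-γ fun i => ((BB c β').of (g i)).1) ((BB c β').of (g i)))
      left_inv := by
        intro g
        funext i
        show act (-γ fun i => ((BB c β).of (g i)).1)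
          (act (γ fun i => ((BB c β).of (g i)).1) ((BB c β).of (g i))) = (BB c β).of (g i)
        simp only [act, ap_neg_left]
        simp
      right_inv := by
        intro g
        funext i
        show act (γ fun i => ((BB c β').of (g i)).1)
          (act (-γ fun i => ((BB c β').of (g i)).1) ((BB c β').of (g i))) = (BB c β').of (g i)
        simp only [act, ap_neg_left]
        simp }
  exact ⟨τ, fun g => ⟨_, hγ fun i => ((BB c β).of (g i)).1, fun i => rfl⟩⟩

/-- **The twisted groups are not distinguished.** -/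
theorem wlEquiv_twist {c : Fin b → ι → Fin w → F} {K : ℕ} (hc : Good c K)
    (β β' : ι → ι → Fin w → F) {k : ℕ} (hk : k + 1 ≤ K) :
    WLEquiv k (BB c β).Gr (BB c β').Gr :=
  wlEquiv_of_family (Rel c K β β') (fun _ _ hR => hR.start (by omega))
    (fun _ _ hR => hR.step hc hk) (exists_tau hc β β' (by omega))

end Pool.Agent.K4H86.GW
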